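import Pool.Agent.Helper70.SUB.SheetG

/-!
Project SUB, row HLOW: lower bound for the height of `h` in the nondegenerate case.
-/

set_option autoImplicit false

namespace Pool.Agent.Helper26.SUB

open Finset Matrix Pool.Agent.Helper70.SUB

/-- common denominators -/
theorem clr {n : ℕ} (M : Matrix (Fin n) (Fin n) ℚ) :
    ∃ (D : ℕ) (N : Matrix (Fin n) (Fin n) ℤ), 1 ≤ D ∧
      ∀ i k, ((N i k : ℤ) : ℚ) = (D : ℚ) * M i k := by
  classical
  let P : Finset (Fin n × Fin n) := Finset.univ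
  refine ⟨∏ x ∈ P, (M x.1 x.2).den,
    fun i k => (((∏ x ∈ P, (M x.1 x.2).den) / (M i k).den : ℕ) : ℤ) * (M i k).num, ?_, ?_⟩
  · exact Nat.one_le_iff_ne_zero.2 (Finset.prod_ne_zero_iff.2 fun x _ => (M x.1 x.2).den_ne_zero)
  · intro i k
    have hd : (M i k).den ∣ ∏ x ∈ P, (M x.1 x.2).den :=
      Finset.dvd_prod_of_mem (fun x : Fin n × Fin n => (M x.1 x.2).den) (Finset.mem_univ (i, k))
    obtain ⟨c, hc⟩ := hd
    have hpos : 0 < (M i k).den := (M i k).den_pos
    beta_reduce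
    rw [hc, Nat.mul_div_cancel_left _ hpos]
    push_cast
    have := Rat.den_mul_eq_num (M i k)
    rw [← this]
    ring

/-- Liouville's lower bound for the value of a form -/
theorem liou (hAV : ST_AV) {n : ℕ} (S : Finset ℕ) (hS : ∀ p ∈ S, p.Prime)
    (A : Option ℕ → Matrix (Fin n) (Fin n) ℚ) :
    ∃ E : ℝ, 1 ≤ E ∧ ∀ v ∈ plc S, ∀ (h : Fin n → ℤ) (R : ℝ), 1 ≤ R → (∀ i, |(h i : ℝ)| ≤ R) →
      ∀ i, (A v).mulVec (cv h) i ≠ 0 → 1 / (E * R) ≤ av v ((A v).mulVec (cv h) i) := by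
  classical
  obtain ⟨h0, h1, h2⟩ := hAV
  obtain ⟨hpos, hmul, hadd, hmax, hint, hz, hpr, hpr1, hsum⟩ := h2 S hS
  choose D N hD hN using fun v => clr (A v)
  let e : Option ℕ → ℝ := fun v => (D v : ℝ) + ∑ i, ∑ k, |(N v i k : ℝ)|
  have he : ∀ v, 0 ≤ e v := fun v => by
    have : 0 ≤ ∑ i, ∑ k, |(N v i k : ℝ)| :=
      Finset.sum_nonneg fun i _ => Finset.sum_nonneg fun k _ => abs_nonneg _
    have hD0 : (0 : ℝ) ≤ D v := Nat.cast_nonneg _
    exact add_nonneg hD0 this
  refine ⟨1 + ∑ v ∈ plc S, e v, ?_, ?_⟩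
  · have : 0 ≤ ∑ v ∈ plc S, e v := Finset.sum_nonneg fun v _ => he v
    linarith
  intro v hv h R hR hh i hne
  set E : ℝ := 1 + ∑ v ∈ plc S, e v
  have hE : e v ≤ E := by
    have := Finset.single_le_sum (f := e) (fun v _ => he v) hv
    simp only [E]
    linarith
  have hE1 : 1 ≤ E := by
    have : 0 ≤ ∑ v ∈ plc S, e v := Finset.sum_nonneg fun v _ => he v
    simp only [E]
    linarith
  set w : ℚ := (A v).mulVec (cv h) i
  set z : ℤ := ∑ k, N v i k * h k
  have hzw : ((z : ℤ) : ℚ) = (D v : ℚ) * w := by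
    simp only [z, w, Matrix.mulVec, dotProduct, cv]
    push_cast
    rw [Finset.mul_sum]
    refine Finset.sum_congr rfl fun k _ => ?_
    rw [hN]
    ring
  have hDne : (D v : ℚ) ≠ 0 := by
    have := hD v
    have : 0 < D v := this
    exact_mod_cast this.ne'
  have hzne : z ≠ 0 := by
    intro hz0
    rw [hz0] at hzw
    have : (D v : ℚ) * w = 0 := by rw [← hzw]; simp
    rcases mul_eq_zero.1 this with h' | h'
    · exact hDne h'
    · exact hne h'
  have hEpos : 0 < E * R := mul_pos (by linarith) (by linarith)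
  have hzabs : |(z : ℝ)| ≤ E * R := by
    have h3 : |(z : ℝ)| ≤ ∑ k, |(N v i k : ℝ)| * R := by
      simp only [z]
      push_cast
      refine (Finset.abs_sum_le_sum_abs _ _).trans ?_
      refine Finset.sum_le_sum fun k _ => ?_
      rw [abs_mul]
      exact mul_le_mul_of_nonneg_left (hh k) (abs_nonneg _)
    have h4 : ∑ k, |(N v i k : ℝ)| ≤ e v := by
      have h5 : ∑ k, |(N v i k : ℝ)| ≤ ∑ i, ∑ k, |(N v i k : ℝ)| :=
        Finset.single_le_sum (f := fun i => ∑ k, |(N v i k : ℝ)|)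
          (fun i _ => Finset.sum_nonneg fun k _ => abs_nonneg _) (Finset.mem_univ i)
      have hD0 : (0 : ℝ) ≤ D v := Nat.cast_nonneg _
      simp only [e]
      linarith
    rw [← Finset.sum_mul] at h3
    exact h3.trans (mul_le_mul_of_nonneg_right (h4.trans hE) (by linarith))
  rcases v with _ | p
  · -- the real place
    have h6 : av none w = |(w : ℝ)| := rfl
    rw [h6]
    have hDr : (1 : ℝ) ≤ D none := by exact_mod_cast hD none
    have hw : (z : ℝ) = (D none : ℝ) * (w : ℝ) := by exact_mod_cast hzw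
    have hz1 : (1 : ℝ) ≤ |(z : ℝ)| := by
      have := Int.one_le_abs hzne
      exact_mod_cast this
    have hDE : (D none : ℝ) ≤ E * R := by
      have h7 : (D none : ℝ) ≤ e none := by
        have : 0 ≤ ∑ i, ∑ k, |(N none i k : ℝ)| :=
          Finset.sum_nonneg fun i _ => Finset.sum_nonneg fun k _ => abs_nonneg _
        simp only [e]
        linarith
      calc (D none : ℝ) ≤ E := h7.trans hE
        _ ≤ E * R := by nlinarith
    rw [div_le_iff₀ hEpos]
    rw [hw, abs_mul, abs_of_pos (by linarith : (0 : ℝ) < D none)] at hz1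
    calc (1 : ℝ) ≤ (D none : ℝ) * |(w : ℝ)| := hz1
      _ ≤ (E * R) * |(w : ℝ)| := mul_le_mul_of_nonneg_right hDE (abs_nonneg _)
      _ = |(w : ℝ)| * (E * R) := by ring
  · -- a prime
    have hp : p ∈ S := by simpa [plc] using hv
    have h8 := hz p hp z hzne
    have h9 : av (some p) ((z : ℤ) : ℚ) ≤ av (some p) w := by
      rw [hzw, hmul _ hv]
      have : av (some p) ((D (some p) : ℕ) : ℚ) ≤ 1 := by
        have := hint p hp (D (some p) : ℤ)
        simpa using this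
      calc _ ≤ 1 * av (some p) w := mul_le_mul_of_nonneg_right this (h0 _ _)
        _ = _ := one_mul _
    rw [div_le_iff₀ hEpos]
    have h10 : av (some p) ((z : ℤ) : ℚ) * |(z : ℝ)| ≤ av (some p) w * (E * R) :=
      mul_le_mul h9 hzabs (abs_nonneg _) (h0 _ _)
    linarith

theorem HLOW (hAV : ST_AV) : ST_HLOW := by
  classical
  intro k S A C δ hk hS hA hC hδ
  obtain ⟨E, hE1, hE⟩ := liou hAV S hS (fun v => ((A v)⁻¹)ᵀ)
  obtain ⟨h0, h1, h2⟩ := hAV
  obtain ⟨hpos, hmul, hadd, hmax, hint, hz, hpr, hpr1, hsum⟩ := h2 S hS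
  set V : ℕ := (plc S).card with hV
  have hVpos : 0 < V := by
    rw [hV]
    refine Finset.card_pos.2 ⟨none, ?_⟩
    simp [plc]
  set m : ℕ := (k + 1) * V with hm
  have hmpos : (0 : ℝ) < m := by
    have : 0 < m := Nat.mul_pos (Nat.succ_pos _) hVpos
    exact_mod_cast this
  have hk' : (1 : ℝ) ≤ k := by exact_mod_cast hk
  -- the exponent
  set τ : ℝ := k * δ / (2 * m) with hτ
  have hτpos : 0 < τ := by positivity
  set G : ℝ := C ^ (k + 2) * E ^ m with hG
  have hG1 : 1 ≤ G := by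
    have := one_le_pow₀ hC (n := k + 2)
    have := one_le_pow₀ hE1 (n := m)
    simp only [hG]
    nlinarith
  have hκ : 0 < (k : ℝ) * δ / 2 := by positivity
  refine ⟨τ, (G + 1) ^ (1 / ((k : ℝ) * δ / 2)) + 1, hτpos, ?_⟩
  intro Q s h lam t hQ hs hlam hvol hgap hw ht hst hprod
  by_contra hcon
  push Not at hcon
  have hpow1 : (0 : ℝ) ≤ (G + 1) ^ (1 / ((k : ℝ) * δ / 2)) :=
    Real.rpow_nonneg (by linarith) _
  have hQ1 : 1 ≤ Q := by linarith
  have hQpos : 0 < Q := by linarith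
  have hQτ : 1 ≤ Q ^ τ := Real.one_le_rpow hQ1 hτpos.le
  have hQτpos : 0 < Q ^ τ := by linarith
  -- the scales
  have hsc : ∀ v ∈ plc S, ∀ i, s v i ≤ E * Q ^ τ * t v := by
    intro v hv i
    have h3 := hE v hv h (Q ^ τ) hQτ (fun i => (hcon i).le) i (hw v hv i)
    have h4 := hst v hv i
    have hEQ : 0 < E * Q ^ τ := by positivity
    have h5 : 1 / (E * Q ^ τ) * s v i ≤ t v :=
      (mul_le_mul_of_nonneg_right h3 (hs v hv i).le).trans h4
    have h6 : s v i = (E * Q ^ τ) * (1 / (E * Q ^ τ) * s v i) := by field_simp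
    rw [h6]
    exact mul_le_mul_of_nonneg_left h5 hEQ.le
  set L : ℝ := lam (Fin.last k) with hL
  have hLpos : 0 < L := hlam _
  have hprodpos : 0 ≤ ∏ v ∈ plc S, t v := Finset.prod_nonneg fun v hv => (ht v hv).le
  have h7 : ∏ v ∈ plc S, ∏ i, s v i ≤ (E * Q ^ τ) ^ m * (C / L) ^ (k + 1) := by
    calc ∏ v ∈ plc S, ∏ i, s v i ≤ ∏ v ∈ plc S, ∏ _i : Fin (k + 1), (E * Q ^ τ * t v) := by
          refine Finset.prod_le_prod (fun v hv => Finset.prod_nonneg fun i _ => (hs v hv i).le)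
            fun v hv => Finset.prod_le_prod (fun i _ => (hs v hv i).le) fun i _ => hsc v hv i
      _ = ∏ v ∈ plc S, ((E * Q ^ τ) * t v) ^ (k + 1) := by simp
      _ = (∏ v ∈ plc S, ((E * Q ^ τ) * t v)) ^ (k + 1) := by rw [Finset.prod_pow]
      _ = ((E * Q ^ τ) ^ V * ∏ v ∈ plc S, t v) ^ (k + 1) := by
          rw [Finset.prod_mul_distrib, Finset.prod_const]
      _ ≤ ((E * Q ^ τ) ^ V * (C / L)) ^ (k + 1) := by
          refine pow_le_pow_left₀ (by positivity) ?_ _
          exact mul_le_mul_of_nonneg_left hprod (by positivity)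
      _ = (E * Q ^ τ) ^ m * (C / L) ^ (k + 1) := by
          rw [mul_pow, ← pow_mul, hm, mul_comm (k + 1) V]
  have h8 : ∏ l, lam l ≤ Q ^ (-(k * δ)) * L ^ (k + 1) := by
    rw [Fin.prod_univ_castSucc]
    have h9 : ∏ l : Fin k, lam l.castSucc ≤ ∏ _l : Fin k, (Q ^ (-δ) * L) := by
      refine Finset.prod_le_prod (fun l _ => (hlam _).le) fun l _ => ?_
      exact hgap l.castSucc (by simp)
    rw [Finset.prod_const, Finset.card_univ, Fintype.card_fin, mul_pow, ← Real.rpow_natCast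
      (Q ^ (-δ)) k, ← Real.rpow_mul hQpos.le] at h9
    have h10 : (-δ * (k : ℝ)) = -(k * δ) := by ring
    rw [h10] at h9
    calc (∏ l : Fin k, lam l.castSucc) * lam (Fin.last k)
        ≤ (Q ^ (-(k * δ)) * L ^ k) * L := mul_le_mul_of_nonneg_right h9 hLpos.le
      _ = _ := by ring
  have h11 : 1 / C ≤ (E ^ m * C ^ (k + 1)) * (Q ^ ((k : ℝ) * δ / 2) * Q ^ (-(k * δ))) := by
    refine hvol.trans ?_
    calc (∏ v ∈ plc S, ∏ i, s v i) * ∏ l, lam l
        ≤ ((E * Q ^ τ) ^ m * (C / L) ^ (k + 1)) * (Q ^ (-(k * δ)) * L ^ (k + 1)) := by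
          refine mul_le_mul h7 h8 (Finset.prod_nonneg fun l _ => (hlam l).le) ?_
          positivity
      _ = (E ^ m * C ^ (k + 1)) * ((Q ^ τ) ^ m * Q ^ (-(k * δ))) := by
          rw [mul_pow, div_pow]
          field_simp
      _ = _ := by
          have h12 : (Q ^ τ) ^ m = Q ^ ((k : ℝ) * δ / 2) := by
            rw [← Real.rpow_natCast, ← Real.rpow_mul hQpos.le]
            congr 1
            rw [hτ]
            field_simp
          rw [h12]
  have h13 : Q ^ ((k : ℝ) * δ / 2) * Q ^ (-(k * δ)) = (Q ^ ((k : ℝ) * δ / 2))⁻¹ := by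
    rw [← Real.rpow_add hQpos, ← Real.rpow_neg hQpos.le]
    congr 1
    ring
  rw [h13] at h11
  have hX : 0 < Q ^ ((k : ℝ) * δ / 2) := Real.rpow_pos_of_pos hQpos _
  have h14 : Q ^ ((k : ℝ) * δ / 2) ≤ G := by
    have hCpos : 0 < C := by linarith
    have h15 := mul_le_mul_of_nonneg_left h11 (mul_pos hCpos hX).le
    have h16 : C * Q ^ ((k : ℝ) * δ / 2) * (1 / C) = Q ^ ((k : ℝ) * δ / 2) := by field_simp
    have h17 : C * Q ^ ((k : ℝ) * δ / 2) * (E ^ m * C ^ (k + 1) * (Q ^ ((k : ℝ) * δ / 2))⁻¹)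
        = G := by
      rw [hG]
      field_simp
      ring
    rw [h16, h17] at h15
    exact h15
  have h18 : G + 1 ≤ Q ^ ((k : ℝ) * δ / 2) := by
    have h19 : (G + 1) ^ (1 / ((k : ℝ) * δ / 2)) ≤ Q := by linarith
    have h20 := Real.rpow_le_rpow hpow1 h19 hκ.le
    rw [← Real.rpow_mul (by linarith : (0 : ℝ) ≤ G + 1), one_div_mul_cancel hκ.ne',
      Real.rpow_one] at h20
    exact h20
  linarith

end Pool.Agent.Helper26.SUB
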